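import Pool.Agent.Helper99.SC.Main

open Pool.Agent.Helper99.SC Pool.Agent.Helper20.Flip

/-- The recognition problem for strongly confluent graphs (input: a finite simple graph; does it have
a strongly confluent drawing?) is NP-hard under polynomial-time many-one reductions. -/
theorem Pool.Agent.Results.MP_c6b55c_lc.StronglyConfluentNPHard.result : NPHard SCONF :=
  main
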